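import Mathlib

set_option autoImplicit false

namespace Pool.Agent.Results.MP_dc5ea1_nt.FourthException

/-- the generalized heptagonal number `r (5 r - 3) / 2` with index `r : ℤ` (the product
`r (5 r - 3)` is even, so the integer division by `2` is exact) -/
def H (r : ℤ) : ℤ := r * (5 * r - 3) / 2

/-- `n` is a sum of three generalized heptagonal numbers -/
def SumOfThree (n : ℕ) : Prop := ∃ a b c : ℤ, (n : ℤ) = H a + H b + H c

theorem two_mul_H (r : ℤ) : 2 * H r = r * (5 * r - 3) := by
  unfold H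
  have : 2 ∣ r * (5 * r - 3) := by
    rcases Int.even_or_odd r with ⟨k, hk⟩ | ⟨k, hk⟩
    · exact Dvd.dvd.mul_right ⟨k, by omega⟩ _
    · exact Dvd.dvd.mul_left ⟨5 * k + 1, by omega⟩ _
  exact Int.mul_ediv_cancel' this

theorem H_nonneg (r : ℤ) : 0 ≤ H r := by
  have h := two_mul_H r
  rcases le_or_gt r 0 with h0 | h0
  · nlinarith
  · nlinarith

theorem H_bound {r : ℤ} (h : H r ≤ 307) : -10 ≤ r ∧ r ≤ 11 := by
  have h1 := two_mul_H r
  constructor
  · by_contra hcon
    have : r ≤ -11 := by omega
    nlinarith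
  · by_contra hcon
    have : 12 ≤ r := by omega
    nlinarith

theorem check : ∀ a ∈ Finset.Icc (-10 : ℤ) 11, ∀ b ∈ Finset.Icc (-10 : ℤ) 11,
    ∀ c ∈ Finset.Icc (-10 : ℤ) 11, (307 : ℤ) ≠ H a + H b + H c := by
  decide +kernel

theorem not_307 : ¬ SumOfThree 307 := by
  rintro ⟨a, b, c, h⟩
  push_cast at h
  have ha := H_nonneg a
  have hb := H_nonneg b
  have hc := H_nonneg c
  have ba := H_bound (r := a) (by omega)
  have bb := H_bound (r := b) (by omega)
  have bc := H_bound (r := c) (by omega)
  exact check a (Finset.mem_Icc.2 ba) b (Finset.mem_Icc.2 bb) c (Finset.mem_Icc.2 bc) h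

/-- There is a nonnegative integer other than `10`, `16` and `76` that is not a sum of three
generalized heptagonal numbers, namely `307`. -/
theorem result : (307 : ℕ) ∉ ({10, 16, 76} : Finset ℕ) ∧ ¬ SumOfThree 307 :=
  ⟨by decide, not_307⟩

end Pool.Agent.Results.MP_dc5ea1_nt.FourthException
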